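import Pool.Agent.Lib.MP_b525bf_ag_helper53.SmoothFix

/-!
The fixed family of a filtered family is good.
-/

set_option linter.style.haveILetI false

namespace Pool.Agent.MP_b525bf_ag

open AddMonoidAlgebra

namespace H53

variable {k K : Type} [Field k] [Field K] [Algebra k K]

/-! ### Products of homogeneous elements -/

lemma prod_mem {ι α : Type} [AddCommGroup ι] (N : Fam k K ι) (S : Finset α) (d : α → ι)
    (x : α → K) (hx : ∀ a, x a ∈ N.s (d a)) : ∏ a ∈ S, x a ∈ N.s (∑ a ∈ S, d a) := by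
  classical
  induction S using Finset.induction_on with
  | empty => simpa using N.one'
  | insert a S ha ih =>
    rw [Finset.prod_insert ha, Finset.sum_insert ha]
    exact N.mul' (hx a) ih

lemma prod_el {ι α : Type} [AddCommGroup ι] (N : Fam k K ι) (S : Finset α) (d : α → ι)
    (x : α → K) (hx : ∀ a, x a ∈ N.s (d a)) :
    ∏ a ∈ S, N.el (hx a) = N.el (prod_mem N S d x hx) := by
  classical
  induction S using Finset.induction_on with
  | empty =>
    rw [Finset.prod_empty, ← Fam.el_one]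
    exact Fam.el_eq _ _ _ (by simp) (by simp)
  | insert a S ha ih =>
    rw [Finset.prod_insert ha, ih, Fam.el_mul]
    exact Fam.el_eq _ _ _ (by rw [Finset.sum_insert ha]) (by rw [Finset.prod_insert ha])

/-! ### Elements of positive degree -/

/-- The elements of positive degree lying in `Q`. -/
def posFam (N : Fam k K ℤ) (Q : Ideal N.alg) : Fam k K ℤ where
  s a :=
    { carrier := {x | ∃ hx : x ∈ N.s a, 0 < a → N.el hx ∈ Q}
      add_mem' := by
        rintro x y ⟨hx, hx'⟩ ⟨hy, hy'⟩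
        refine ⟨Submodule.add_mem _ hx hy, fun ha => ?_⟩
        have : N.el (Submodule.add_mem _ hx hy) = N.el hx + N.el hy := by
          apply Subtype.ext
          exact AddMonoidAlgebra.single_add _ _ _
        rw [this]
        exact Ideal.add_mem _ (hx' ha) (hy' ha)
      zero_mem' := by
        refine ⟨Submodule.zero_mem _, fun _ => ?_⟩
        have : N.el (Submodule.zero_mem (N.s a)) = 0 := by
          apply Subtype.ext
          exact AddMonoidAlgebra.single_zero _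
        rw [this]
        exact Ideal.zero_mem _
      smul_mem' := by
        rintro c x ⟨hx, hx'⟩
        refine ⟨Submodule.smul_mem _ c hx, fun ha => ?_⟩
        have : N.el (Submodule.smul_mem _ c hx) = algebraMap k N.alg c * N.el hx := by
          rw [← Algebra.smul_def]
          apply Subtype.ext
          exact (AddMonoidAlgebra.smul_single _ _ _).symm
        rw [this]
        exact Ideal.mul_mem_left _ _ (hx' ha) }
  one' := ⟨N.one', fun h => absurd h (lt_irrefl _)⟩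
  mul' := by
    rintro a b x y ⟨hx, hx'⟩ ⟨hy, hy'⟩
    refine ⟨N.mul' hx hy, fun hab => ?_⟩
    rw [← Fam.el_mul N hx hy]
    rcases lt_or_ge 0 a with ha | ha
    · exact Ideal.mul_mem_right _ _ (hx' ha)
    · exact Ideal.mul_mem_left _ _ (hy' (by omega))

lemma mem_posFam {N : Fam k K ℤ} {Q : Ideal N.alg} {a : ℤ} {x : K} :
    x ∈ (posFam N Q).s a ↔ ∃ hx : x ∈ N.s a, 0 < a → N.el hx ∈ Q := Iff.rfl

/-- If the generators of positive degree lie in `Q`, so do all elements of positive degree. -/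
lemma pos_mem_of_gen (N : Fam k K ℤ) (Q : Ideal N.alg) (S : Set (AddMonoidAlgebra K ℤ))
    (hS : N.alg ≤ Algebra.adjoin k S)
    (hgen : ∀ G ∈ S, ∃ (a : ℤ) (x : K), G = single a x ∧ ∃ hx : x ∈ N.s a, 0 < a → N.el hx ∈ Q)
    {a : ℤ} {x : K} (ha : 0 < a) (hx : x ∈ N.s a) : N.el hx ∈ Q := by
  have h1 : N.alg ≤ (posFam N Q).alg := by
    refine hS.trans (Algebra.adjoin_le ?_)
    intro G hG
    obtain ⟨b, y, rfl, h⟩ := hgen G hG
    exact Fam.single_mem_alg.2 (mem_posFam.2 h)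
  obtain ⟨hx', h2⟩ := mem_posFam.1 (Fam.single_mem_alg.1 (h1 (Fam.single_mem_alg.2 hx)))
  exact h2 ha

/-- Stabilisers are bounded by the degrees of the generators. -/
theorem exists_stab (M : Fam k K ℤ) (hfg : M.alg.FG) :
    ∃ w : ℕ, 0 < w ∧ ∀ (q : Ideal M.alg) [q.IsPrime],
    (∃ d : ℤ, 0 < d ∧ ∃ (x : K) (hx : x ∈ M.s d), M.el hx ∉ q) →
    ∃ e : ℕ, 0 < e ∧ e ≤ w ∧ ∃ (a : ℤ) (u v : K) (hu : u ∈ M.s (a + e)) (hv : v ∈ M.s a),
      M.el hu ∉ q ∧ M.el hv ∉ q := by
  obtain ⟨r, d, x, hx, hgen⟩ := M.exists_generators hfg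
  refine ⟨∑ i, (d i).toNat + 1, Nat.succ_pos _, ?_⟩
  rintro q hq ⟨a, ha, y, hy, hyq⟩
  by_contra hcon
  apply hyq
  refine pos_mem_of_gen M q _ hgen.le ?_ ha hy
  rintro _ ⟨i, rfl⟩
  refine ⟨d i, x i, rfl, hx i, fun hi => ?_⟩
  by_contra hnot
  apply hcon
  have he : ((d i).toNat : ℤ) = d i := Int.toNat_of_nonneg hi.le
  have hx' : x i ∈ M.s (0 + ((d i).toNat : ℤ)) := by rw [he, zero_add]; exact hx i
  refine ⟨(d i).toNat, by omega, ?_, 0, x i, 1, hx', M.one', ?_, ?_⟩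
  · exact (Finset.single_le_sum (f := fun i => (d i).toNat) (fun _ _ => Nat.zero_le _)
      (Finset.mem_univ i)).trans (Nat.le_succ _)
  · have : M.el hx' = M.el (hx i) := Fam.el_eq _ _ _ (by rw [he, zero_add]) rfl
    rw [this]
    exact hnot
  · intro h1
    exact hq.ne_top ((Ideal.eq_top_iff_one q).2 h1)

/-! ### The norm -/

lemma norm_fixed (τ : K ≃ₐ[k] K) {p : ℕ} (hp : 0 < p) (hτ : τ ^ p = 1) (u : K) :
    τ (∏ l ∈ Finset.range p, (τ ^ l) u) = ∏ l ∈ Finset.range p, (τ ^ l) u := by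
  obtain ⟨m, rfl⟩ : ∃ m, p = m + 1 := ⟨p - 1, by omega⟩
  rw [map_prod, Finset.prod_range_succ, Finset.prod_range_succ']
  have h1 : τ ((τ ^ m) u) = (τ ^ 0) u := by
    rw [← AlgEquiv.mul_apply, ← pow_succ', hτ, pow_zero]
  rw [h1]
  congr 1
  refine Finset.prod_congr rfl fun l _ => ?_
  rw [← AlgEquiv.mul_apply, ← pow_succ']

/-- The data from which the initial family is built. -/
structure Init (N : Fam k K ℤ) (τ : K ≃ₐ[k] K) (p : ℕ) (F : ℕ → Submodule k K) : Prop where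
  adm : Adm N τ
  order : τ ^ p = 1
  one_neg : ∀ d : ℤ, d ≤ 0 → (1 : K) ∈ N.s d
  fg : N.alg.FG
  smooth : Algebra.FormallySmooth k N.alg
  F_le : ∀ i : ℕ, F i ≤ N.s i
  F_anti : ∀ i, F (i + 1) ≤ F i
  F_bot : ∃ L, ∀ i, L ≤ i → F i = ⊥
  lift : ∀ i, ∀ z ∈ F (i + 1), ∃ e ∈ F i, τ e - e = z
  step : ∀ i, ∀ e ∈ F i, τ e - e ∈ F (i + 1)
  gen : N.alg ≤ Algebra.adjoin k
    ({single (-1 : ℤ) (1 : K)} ∪ {G | ∃ i : ℕ, ∃ x ∈ F i, G = single (i : ℤ) x})
  ne : ∃ z ∈ F 1, z ≠ 0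

namespace Init

variable {N : Fam k K ℤ} {τ : K ≃ₐ[k] K} {p : ℕ} [hp : Fact p.Prime] {F : ℕ → Submodule k K}
  (h : Init N τ p F)

include h

omit hp in
lemma map_mem (i : ℕ) {v : K} (hv : v ∈ F i) : τ v ∈ F i := by
  have := Submodule.add_mem _ (h.F_anti i (h.step i v hv)) hv
  rwa [sub_add_cancel] at this

omit hp in
lemma pow_map_mem (i : ℕ) {v : K} (hv : v ∈ F i) (m : ℕ) : (τ ^ m) v ∈ F i := by
  induction m with
  | zero => simpa using hv
  | succ m ih => rw [pow_succ']; exact h.map_mem i ih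

omit hp in
lemma pow_sub_mem (i : ℕ) {v : K} (hv : v ∈ F i) (m : ℕ) : (τ ^ m) v - v ∈ F (i + 1) := by
  induction m with
  | zero => simp
  | succ m ih =>
    have := Submodule.add_mem _ (h.map_mem _ ih) (h.step i v hv)
    convert this using 1
    rw [pow_succ', AlgEquiv.mul_apply, map_sub]
    ring

omit hp in
lemma pow_sub_sub_mem (i : ℕ) {e : K} (he : e ∈ F i) (j : ℕ) :
    (τ ^ j) e - e - (j : K) * (τ e - e) ∈ F (i + 2) := by
  induction j with
  | zero => simp
  | succ j ih =>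
    have := Submodule.add_mem _ ih (h.pow_sub_mem (i + 1) (h.step i e he) j)
    convert this using 1
    rw [pow_succ, AlgEquiv.mul_apply, map_sub]
    push_cast
    ring

omit hp in
lemma pow_pow_sub_mem (i : ℕ) {e : K} (he : e ∈ F i) (j l : ℕ) :
    (τ ^ l) ((τ ^ j) e - e) - (j : K) * (τ e - e) ∈ F (i + 2) := by
  have h1 := h.pow_map_mem _ (h.pow_sub_sub_mem i he j) l
  have h2 := Submodule.smul_mem _ (j : k) (h.pow_sub_mem (i + 1) (h.step i e he) l)
  have := Submodule.add_mem _ h1 h2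
  convert this using 1
  rw [map_sub (τ ^ l) _ ((j : K) * _), map_mul, map_natCast, Algebra.smul_def, map_natCast]
  ring

omit hp in
/-- The element of positive degree not in `Q` gives a good direction. -/
lemma exists_direction (Q : Ideal N.alg) {d : ℤ} (hd : 0 < d) {x : K} (hx : x ∈ N.s d)
    (hxQ : N.el hx ∉ Q) :
    ∃ i : ℕ, ∃ e ∈ F i, (∃ hz : τ e - e ∈ N.s ((i : ℤ) + 1), N.el hz ∉ Q) ∧
      ∀ z' ∈ F (i + 2), ∀ hz' : z' ∈ N.s ((i : ℤ) + 2), N.el hz' ∈ Q := by
  classical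
  set P : ℕ → Prop := fun i => ∃ z, ∃ hz : z ∈ F i, N.el (h.F_le i hz) ∉ Q with hP
  have hex : ∃ i, 1 ≤ i ∧ P i := by
    by_contra hcon
    push Not at hcon
    apply hxQ
    refine pos_mem_of_gen N Q _ h.gen ?_ hd hx
    rintro G (hG | ⟨i, y, hy, rfl⟩)
    · exact ⟨-1, 1, hG, h.adm.t_mem, fun h0 => absurd h0 (by norm_num)⟩
    · refine ⟨i, y, rfl, h.F_le i hy, fun hi => ?_⟩
      by_contra hnot
      exact hcon i (by exact_mod_cast hi) ⟨y, hy, hnot⟩
  obtain ⟨L, hL⟩ := h.F_bot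
  have hPL : ∀ i, P i → i ≤ L := by
    rintro i ⟨z, hz, hzQ⟩
    by_contra hlt
    push Not at hlt
    have h0 : z = 0 := by
      have := hz
      rw [hL i hlt.le] at this
      exact (Submodule.mem_bot k).1 this
    subst h0
    apply hzQ
    have : N.el (h.F_le i hz) = 0 := by
      apply Subtype.ext
      exact AddMonoidAlgebra.single_zero _
    rw [this]
    exact Ideal.zero_mem _
  obtain ⟨i0, hi0, hPi0⟩ := hex
  set m := Nat.findGreatest P L with hm
  have hPm : P m := Nat.findGreatest_spec (hPL i0 hPi0) hPi0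
  have hm1 : 1 ≤ m := hi0.trans (Nat.le_findGreatest (hPL i0 hPi0) hPi0)
  have hmax : ∀ i, m < i → ¬ P i := by
    intro i hi hPi
    exact Nat.findGreatest_is_greatest hi (hPL i hPi) hPi
  clear_value m
  obtain ⟨i, rfl⟩ : ∃ i, m = i + 1 := ⟨m - 1, by omega⟩
  obtain ⟨z, hz, hzQ⟩ := hPm
  obtain ⟨e, he, hez⟩ := h.lift i z hz
  refine ⟨i, e, he, ⟨?_, ?_⟩, ?_⟩
  · rw [hez]
    have := h.F_le _ hz
    push_cast at this
    exact this
  · intro h1
    apply hzQ
    convert h1 using 1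
    exact Fam.el_eq _ _ _ (by push_cast; rfl) hez.symm
  · intro z' hz' hz'N
    have h1 := hmax (i + 2) (by omega)
    by_contra hnot
    apply h1
    refine ⟨z', hz', ?_⟩
    intro h2
    apply hnot
    convert h2 using 1

/-- The charts. -/
lemma exists_chart [CharP k p] (q : Ideal (fixFam N τ).alg) [q.IsPrime] {d : ℤ} (hd : 0 < d)
    {x : K} (hx : x ∈ (fixFam N τ).s d) (hx0 : x ≠ 0) (hxq : (fixFam N τ).el hx ∉ q) :
    ∃ (b : ℤ) (y : K) (hy : y ∈ (fixFam N τ).s b), (fixFam N τ).el hy ∉ q ∧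
      Algebra.FormallySmooth k ((fixFam N τ).loc ((fixFam N τ).mul' hx hy)).alg := by
  classical
  obtain ⟨Q, hQprime, hQ⟩ : ∃ Q : Ideal N.alg, Q.IsPrime ∧
      Q.comap (fixIncl N τ).toRingHom = q := by
    letI := (fixIncl N τ).toRingHom.toAlgebra
    haveI : Algebra.IsIntegral (fixFam N τ).alg N.alg :=
      algebraMap_isIntegral_iff.1 (fix_isIntegral h.adm h.order)
    refine Ideal.exists_ideal_over_prime_of_isIntegral_of_isDomain (S := N.alg) q ?_
    have h1 : RingHom.ker (algebraMap (fixFam N τ).alg N.alg) = ⊥ :=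
      (RingHom.injective_iff_ker_eq_bot _).1 (fixIncl_injective N τ)
    rw [h1]
    exact bot_le
  have hincl : ∀ {b : ℤ} {y : K} (hy : y ∈ (fixFam N τ).s b),
      (fixFam N τ).el hy ∈ q ↔ N.el hy.1 ∈ Q := by
    intro b y hy
    rw [← hQ, Ideal.mem_comap]
    exact Iff.rfl
  have hxQ : N.el hx.1 ∉ Q := fun hmem => hxq ((hincl hx).2 hmem)
  obtain ⟨i, e, he, ⟨hz, hzQ⟩, hmax⟩ := h.exists_direction Q hd hx.1 hxQ
  set S : Finset (ℕ × ℕ) := Finset.range (p - 1) ×ˢ Finset.range p with hS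
  set X : ℕ × ℕ → K := fun a => (τ ^ a.2) ((τ ^ (a.1 + 1)) e - e) with hX
  have hXmem : ∀ a, X a ∈ N.s ((i : ℤ) + 1) := fun a =>
    h.adm.pow_map_mem (h.adm.pow_sub_mem (h.F_le i he) (a.1 + 1)) a.2
  set c0 : K := ∏ a ∈ S, X a with hc0
  have hc0N : c0 ∈ N.s (∑ a ∈ S, ((i : ℤ) + 1)) := prod_mem N S (fun _ => (i : ℤ) + 1) X hXmem
  have hc0fix : τ c0 = c0 := by
    rw [hc0, hS, Finset.prod_product, map_prod]
    refine Finset.prod_congr rfl fun j _ => ?_
    simp only [hX]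
    exact norm_fixed τ hp.out.pos h.order ((τ ^ (j + 1)) e - e)
  have hfac : ∀ a ∈ S, N.el (hXmem a) ∉ Q := by
    rintro ⟨j, l⟩ ha hmem
    have hj : j < p - 1 := Finset.mem_range.1 (Finset.mem_product.1 ha).1
    have hw := h.pow_pow_sub_mem i he (j + 1) l
    have hwN : X (j, l) - ((j + 1 : ℕ) : K) * (τ e - e) ∈ N.s ((i : ℤ) + 2) := by
      have := h.F_le _ hw
      push_cast at this ⊢
      exact this
    have h1 : N.el (hXmem (j, l)) = N.el h.adm.t_mem * N.el hwN +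
        algebraMap k N.alg ((j + 1 : ℕ) : k) * N.el hz := by
      rw [← Algebra.smul_def]
      apply Subtype.ext
      change single _ _ = single (-1 : ℤ) (1 : K) * single _ _ +
        ((j + 1 : ℕ) : k) • single _ _
      rw [single_mul_single, smul_single, one_mul, show (-1 : ℤ) + ((i : ℤ) + 2) = i + 1 by ring,
        ← single_add]
      congr 1
      rw [Algebra.smul_def, map_natCast]
      ring
    have h2 : algebraMap k N.alg ((j + 1 : ℕ) : k) * N.el hz ∈ Q := by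
      rw [h1] at hmem
      exact (Ideal.add_mem_iff_right _ (Ideal.mul_mem_left _ _ (hmax _ hw hwN))).1 hmem
    rcases hQprime.mem_or_mem h2 with h3 | h3
    · have hne : ((j + 1 : ℕ) : k) ≠ 0 := by
        intro h0
        rw [CharP.cast_eq_zero_iff k p] at h0
        exact absurd (Nat.le_of_dvd (Nat.succ_pos _) h0) (by omega)
      have hunit : IsUnit (algebraMap k N.alg ((j + 1 : ℕ) : k)) :=
        (IsUnit.mk0 _ hne).map _
      exact hQprime.ne_top (Ideal.eq_top_of_isUnit_mem _ h3 hunit)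
    · exact hzQ h3
  have hc0Q : N.el hc0N ∉ Q := by
    have := prod_el N S (fun _ => (i : ℤ) + 1) X hXmem
    intro hmem
    change N.el (prod_mem N S (fun _ => (i : ℤ) + 1) X hXmem) ∈ Q at hmem
    rw [← this, Ideal.IsPrime.prod_mem_iff] at hmem
    obtain ⟨a, ha, haQ⟩ := hmem
    exact hfac a ha haQ
  have hy : c0 ∈ (fixFam N τ).s (∑ a ∈ S, ((i : ℤ) + 1)) := ⟨hc0N, hc0fix⟩
  refine ⟨_, c0, hy, fun hmem => hc0Q ((hincl hy).1 hmem), ?_⟩
  have hc00 : c0 ≠ 0 := by
    intro h0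
    apply hc0Q
    have : N.el hc0N = 0 := by
      apply Subtype.ext
      rw [Fam.coe_el, h0]
      exact AddMonoidAlgebra.single_zero _
    rw [this]
    exact Ideal.zero_mem _
  have hxy0 : x * c0 ≠ 0 := mul_ne_zero hx0 hc00
  set hxy := (fixFam N τ).mul' hx hy with hhxy
  rw [fixFam_loc N τ hxy hxy0]
  refine smooth_fix (h.adm.loc hxy.1 hxy.2) h.order (H53.formallySmooth_loc N hxy.1 hxy0 h.smooth)
    (i := i) (e := e) (N.le_loc _ _ (h.F_le i he)) ?_
  intro j hj0 hj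
  have hunit : IsUnit ((N.toLoc hxy.1) (N.el hxy.1)) := by
    rw [Fam.toLoc_el]
    refine IsUnit.of_mul_eq_one ((N.loc hxy.1).el (N.inv_mem_loc hxy.1 hxy0)) ?_
    rw [Fam.el_mul, ← Fam.el_one]
    exact Fam.el_eq _ _ _ (by simp) (mul_inv_cancel₀ hxy0)
  have hdvd : N.el (h.adm.pow_sub_mem (h.F_le i he) j) ∣ N.el hxy.1 := by
    have h1 : N.el hxy.1 = N.el hx.1 * N.el hc0N := (Fam.el_mul N hx.1 hc0N).symm
    rw [h1]
    refine Dvd.dvd.mul_left ?_ _
    have h2 := prod_el N S (fun _ => (i : ℤ) + 1) X hXmem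
    change _ ∣ N.el (prod_mem N S (fun _ => (i : ℤ) + 1) X hXmem)
    rw [← h2]
    have h3 : (j - 1, 0) ∈ S := by
      rw [hS, Finset.mem_product, Finset.mem_range, Finset.mem_range]
      exact ⟨by dsimp only; omega, hp.out.pos⟩
    have h4 := Finset.dvd_prod_of_mem (fun a => N.el (hXmem a)) h3
    have h5 : N.el (hXmem (j - 1, 0)) = N.el (h.adm.pow_sub_mem (h.F_le i he) j) := by
      refine Fam.el_eq _ _ _ rfl ?_
      simp only [hX, pow_zero, AlgEquiv.one_apply]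
      rw [Nat.sub_add_cancel hj0]
    rw [← h5]
    exact h4
  have hfin : IsUnit ((N.toLoc hxy.1) (N.el (h.adm.pow_sub_mem (h.F_le i he) j))) :=
    isUnit_of_dvd_unit (map_dvd (N.toLoc hxy.1) hdvd) hunit
  exact hfin

theorem good [CharP k p] : ∃ w : ℕ, 0 < w ∧ Good (fixFam N τ) w := by
  have hfg : (fixFam N τ).alg.FG := fix_fg h.adm h.order h.fg
  obtain ⟨w, hw, hstab⟩ := exists_stab (fixFam N τ) hfg
  refine ⟨w, hw, hfg, ?_, hstab, ?_, ?_⟩
  · intro d hd x hx hx0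
    refine Fam.formallySmooth_loc_of_cover _ hfg hx hx0 ?_
    intro q hq hxq
    exact h.exists_chart q hd hx hx0 hxq
  · intro d hd
    exact ⟨h.one_neg d hd, map_one _⟩
  · obtain ⟨z, hz, hz0⟩ := h.ne
    refine ⟨∑ _l ∈ Finset.range p, (1 : ℤ), ?_, ∏ l ∈ Finset.range p, (τ ^ l) z, ⟨?_, ?_⟩, ?_⟩
    · simp [hp.out.pos]
    · refine prod_mem N _ (fun _ => (1 : ℤ)) (fun l => (τ ^ l) z) fun l => ?_
      have := h.F_le 1 (h.pow_map_mem 1 hz l)
      exact_mod_cast this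
    · exact norm_fixed τ hp.out.pos h.order z
    · rw [Finset.prod_ne_zero_iff]
      intro l _ h0
      apply hz0
      exact (map_eq_zero_iff _ (AlgEquiv.injective (τ ^ l))).1 h0

end Init

end H53

end Pool.Agent.MP_b525bf_ag
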