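import Pool.Agent.Lib.MP_b525bf_ag_helper53.Initial
import Pool.Agent.Lib.MP_b525bf_ag.Canon

/-!
Smoothness of the canonical extended Rees algebra in the linear case.
-/

namespace Pool.Agent.MP_b525bf_ag

open AddMonoidAlgebra

namespace H53

section CanonLinear

variable {k K : Type} [Field k] [Field K] [Algebra k K] {n : ℕ}

/-- The linear form with coefficients `v`, as an element of `K`. -/
noncomputable def linK (χ : MvPolynomial (Fin n) k →ₐ[k] K) : (Fin n → k) →ₗ[k] K :=
  χ.toLinearMap ∘ₗ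
    (Fintype.linearCombination k (fun i => (MvPolynomial.X i : MvPolynomial (Fin n) k)))

lemma linK_apply (χ : MvPolynomial (Fin n) k →ₐ[k] K) (v : Fin n → k) :
    linK χ v = χ (∑ i, MvPolynomial.C (v i) * MvPolynomial.X i) := by
  rw [linK, LinearMap.comp_apply, Fintype.linearCombination_apply]
  simp_rw [MvPolynomial.smul_eq_C_mul]
  rfl

variable (σ : K ≃ₐ[k] K) (g : Matrix (Fin n) (Fin n) k) (χ : MvPolynomial (Fin n) k →ₐ[k] K)

/-- The flag, as spaces of linear forms. -/
noncomputable def flagK (i : ℕ) : Submodule k K := (flag g i).map (linK χ)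

variable {σ g χ}

lemma mem_flagK {i : ℕ} {x : K} :
    x ∈ flagK g χ i ↔ ∃ u, linK χ (((g - 1).mulVecLin ^ i) u) = x := by
  constructor
  · rintro ⟨_, ⟨u, rfl⟩, hv⟩
    exact ⟨u, hv⟩
  · rintro ⟨u, hv⟩
    exact ⟨_, ⟨u, rfl⟩, hv⟩

lemma dl_linK (hσ : ∀ x, σ (χ x) = χ (act g x)) (v : Fin n → k) :
    Fam.dl σ (linK χ v) = linK χ ((g - 1).mulVecLin v) := by
  have h1 : σ (linK χ v) = linK χ (g.mulVec v) := by
    rw [linK_apply, hσ, act_lin, ← linK_apply]
  rw [Fam.dl_apply, h1, ← map_sub, Matrix.mulVecLin_apply, Matrix.sub_mulVec, Matrix.one_mulVec]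

lemma dl_pow_linK (hσ : ∀ x, σ (χ x) = χ (act g x)) (v : Fin n → k) (i : ℕ) :
    ((Fam.dl σ) ^ i) (linK χ v) = linK χ (((g - 1).mulVecLin ^ i) v) := by
  induction i with
  | zero => rw [pow_zero, pow_zero]; rfl
  | succ i ih =>
    rw [pow_succ', Module.End.mul_apply, ih, dl_linK hσ, pow_succ', Module.End.mul_apply]

lemma range_eq_adjoin_flagK :
    χ.range ≤ Algebra.adjoin k (flagK g χ 0 : Set K) := by
  rw [← Algebra.map_top, ← MvPolynomial.adjoin_range_X, AlgHom.map_adjoin]
  refine Algebra.adjoin_mono ?_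
  rintro _ ⟨_, ⟨j, rfl⟩, rfl⟩
  refine mem_flagK.2 ⟨Pi.single j 1, ?_⟩
  rw [pow_zero, Module.End.one_apply, linK_apply]
  congr 1
  simp [Pi.single_apply]

lemma linK_mem_range (v : Fin n → k) : linK χ v ∈ χ.range := ⟨_, rfl⟩

/-- The canonical algebra of a linear action is the Rees algebra of the flag. -/
theorem canon_alg_eq (hσ : ∀ x, σ (χ x) = χ (act g x)) :
    (Fam.canon σ χ.range).alg = (rees (flagK g χ)).alg := by
  have hstep : ∀ i, ∀ e ∈ flagK g χ i, σ e - e ∈ flagK g χ (i + 1) := by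
    intro i e he
    obtain ⟨u, rfl⟩ := mem_flagK.1 he
    refine mem_flagK.2 ⟨u, ?_⟩
    rw [← Fam.dl_apply, dl_linK hσ, pow_succ', Module.End.mul_apply]
  have hadm := rees_adm σ hstep
  apply le_antisymm
  · intro G hG a
    refine Fam.canon_le σ χ.range (rees (flagK g χ)) ?_ t_mem_rees ?_ a (hG a)
    · intro b hb
      exact mem_rees_zero (range_eq_adjoin_flagK hb)
    · intro a x hx
      exact hadm.sub_mem a x hx
  · rw [rees_alg]
    refine Algebra.adjoin_le ?_
    rintro G (hG | ⟨i, x, hx, rfl⟩)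
    · rw [Set.mem_singleton_iff] at hG
      rw [hG]
      exact Fam.single_mem_alg.2 (Fam.one_mem_canon σ χ.range)
    · obtain ⟨u, rfl⟩ := mem_flagK.1 hx
      refine Fam.single_mem_alg.2 ?_
      rw [← dl_pow_linK hσ]
      exact Fam.pow_dl_mem_canon σ χ.range i (linK_mem_range u)

theorem rees_flagK_poly (p : ℕ) [Fact p.Prime] [CharP k p] (hg : g ^ p = 1)
    (hχ : Function.Injective χ) :
    Nonempty (MvPolynomial (Option (Fin n)) k ≃ₐ[k] (rees (flagK g χ)).alg) := by
  obtain ⟨b, w, hbw, hspan⟩ := exists_adapted_basis n (flag g) (flag_anti g)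
    (by rw [flag, pow_zero]; exact LinearMap.range_id) p (flag_bot p g hg)
  set P : Matrix (Fin n) (Fin n) k := (Pi.basisFun k (Fin n)).toMatrix b with hP
  set Q : Matrix (Fin n) (Fin n) k := b.toMatrix (Pi.basisFun k (Fin n)) with hQ
  have hQP : Q * P = 1 := Module.Basis.toMatrix_mul_toMatrix_flip _ _
  have hE : Function.Injective (χ.comp (act P)) := by
    have h1 : Function.Injective (act P) := by
      refine Function.LeftInverse.injective (g := act Q) fun x => ?_
      have := congrArg (fun f => f x) (act_mul Q P)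
      rw [hQP, act_one] at this
      exact this
    rw [AlgHom.coe_comp]
    exact Function.Injective.comp hχ h1
  have hEX : ∀ j, (χ.comp (act P)) (MvPolynomial.X j) = linK χ (b j) := by
    intro j
    rw [AlgHom.comp_apply, act_X, linK_apply]
    rfl
  refine rees_poly (χ.comp (act P)) hE w (fun j => ?_) (fun i => ?_)
  · rw [hEX]
    exact ⟨b j, hbw j, rfl⟩
  · rw [flagK]
    refine (Submodule.map_mono (hspan i)).trans ?_
    rw [Submodule.map_span]
    refine Submodule.span_mono ?_
    rintro _ ⟨v, ⟨j, hj, rfl⟩, rfl⟩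
    exact ⟨j, hj, (hEX j).symm⟩

end CanonLinear

end H53

/-- The canonical extended Rees algebra of a linear action of order `p` is smooth. -/
theorem formallySmooth_canon_linear {k K : Type} [Field k] [Field K] [Algebra k K] (p : ℕ)
    [Fact p.Prime] [CharP k p] (σ : K ≃ₐ[k] K) (n : ℕ) (g : Matrix (Fin n) (Fin n) k)
    (hg : g ^ p = 1) (χ : MvPolynomial (Fin n) k →ₐ[k] K) (hχ : Function.Injective χ)
    (hσ : ∀ x, σ (χ x) = χ (act g x)) :
    Algebra.FormallySmooth k (Fam.canon σ χ.range).alg := by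
  rw [H53.canon_alg_eq hσ]
  exact (H53.rees_fg_smooth (H53.rees_flagK_poly p hg hχ)).2

end Pool.Agent.MP_b525bf_ag
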