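import Mathlib

/-!
Bases adapted to a decreasing filtration of a finite-dimensional vector space.
-/

namespace Pool.Agent.MP_b525bf_ag

namespace H53

lemma exists_adapted_set {k V : Type} [Field k] [AddCommGroup V] [Module k V]
    (R : ℕ → Submodule k V) (hR : ∀ i, R (i + 1) ≤ R i) (m : ℕ) (hm : ∀ i, m ≤ i → R i = ⊥)
    (l : ℕ) : ∀ i, i + l = m → ∃ S : Set V, S ⊆ R i ∧ LinearIndepOn k id S ∧
      ∀ j, i ≤ j → R j ≤ Submodule.span k (S ∩ R j) := by
  induction l with
  | zero =>
    intro i hi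
    refine ⟨∅, Set.empty_subset _, linearIndepOn_empty _ _, fun j hj => ?_⟩
    rw [hm j (by omega)]
    exact bot_le
  | succ l ih =>
    intro i hi
    obtain ⟨S, hSR, hS, hspan⟩ := ih (i + 1) (by omega)
    obtain ⟨T, hTR, hST, hspanT, hT⟩ :=
      exists_linearIndepOn_id_extension hS (hSR.trans (hR i))
    refine ⟨T, hTR, hT, fun j hj => ?_⟩
    rcases hj.eq_or_lt with rfl | hj
    · rw [Set.inter_eq_left.2 hTR]
      exact hspanT
    · exact (hspan j hj).trans (Submodule.span_mono (Set.inter_subset_inter_left _ hST))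

/-- A basis adapted to a decreasing filtration. -/
theorem exists_adapted_basis {k : Type} [Field k] (n : ℕ)
    (R : ℕ → Submodule k (Fin n → k)) (hR : ∀ i, R (i + 1) ≤ R i) (h0 : R 0 = ⊤) (m : ℕ)
    (hm : ∀ i, m ≤ i → R i = ⊥) :
    ∃ (b : Module.Basis (Fin n) k (Fin n → k)) (w : Fin n → ℕ), (∀ j, b j ∈ R (w j)) ∧
      ∀ i, R i ≤ Submodule.span k {v | ∃ j, i ≤ w j ∧ v = b j} := by
  classical
  obtain ⟨S, -, hS, hspan⟩ := exists_adapted_set R hR m hm m 0 (by omega)
  have htop : ⊤ ≤ Submodule.span k (Set.range ((↑) : S → (Fin n → k))) := by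
    rw [Subtype.range_coe, ← h0]
    exact (hspan 0 le_rfl).trans (Submodule.span_mono Set.inter_subset_left)
  let b0 : Module.Basis S k (Fin n → k) := Module.Basis.mk hS htop
  let e : S ≃ Fin n := b0.indexEquiv (Pi.basisFun k (Fin n))
  have hb0 : ∀ s : S, b0 s = s := fun s => Module.Basis.mk_apply hS htop s
  let w0 : S → ℕ := fun s => Nat.findGreatest (fun j => (s : Fin n → k) ∈ R j) m
  have hw0 : ∀ s : S, (s : Fin n → k) ∈ R (w0 s) := by
    intro s
    refine Nat.findGreatest_spec (P := fun j => (s : Fin n → k) ∈ R j) (Nat.zero_le m) ?_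
    rw [h0]
    exact Submodule.mem_top
  have hle : ∀ (s : S) (j : ℕ), (s : Fin n → k) ∈ R j → j ≤ w0 s := by
    intro s j hj
    rcases le_or_gt j m with h | h
    · exact Nat.le_findGreatest h hj
    · exfalso
      rw [hm j h.le, Submodule.mem_bot] at hj
      have := b0.ne_zero s
      rw [hb0] at this
      exact this hj
  refine ⟨b0.reindex e, fun j => w0 (e.symm j), fun j => ?_, fun i => ?_⟩
  · rw [Module.Basis.reindex_apply, hb0]
    exact hw0 _
  · refine (hspan i (Nat.zero_le i)).trans (Submodule.span_mono ?_)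
    rintro v ⟨hv, hvR⟩
    refine ⟨e ⟨v, hv⟩, ?_, ?_⟩
    · change i ≤ w0 (e.symm (e ⟨v, hv⟩))
      rw [Equiv.symm_apply_apply]
      exact hle ⟨v, hv⟩ i hvR
    · rw [Module.Basis.reindex_apply, Equiv.symm_apply_apply, hb0]

end H53

end Pool.Agent.MP_b525bf_ag
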