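import Pool.Agent.Lib.MP_b525bf_ag_helper53.GoodFix
import Pool.Agent.Lib.MP_b525bf_ag_helper53.Flag
import Pool.Agent.Lib.MP_b525bf_ag.Defs

/-!
The extended Rees algebra generated by a decreasing family of subspaces of a field.
-/

namespace Pool.Agent.MP_b525bf_ag

open AddMonoidAlgebra

namespace H53

/-- The generators of the extended Rees algebra of the filtration `F`. -/
def gens {k K : Type} [Field k] [Field K] [Algebra k K] (F : ℕ → Submodule k K) :
    Set (AddMonoidAlgebra K ℤ) :=
  {single (-1 : ℤ) (1 : K)} ∪ {G | ∃ i : ℕ, ∃ x ∈ F i, G = single (i : ℤ) x}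

/-- The extended Rees algebra of the filtration `F`. -/
noncomputable def rees {k K : Type} [Field k] [Field K] [Algebra k K] (F : ℕ → Submodule k K) :
    Fam k K ℤ :=
  Fam.ofSub (Algebra.adjoin k (gens F))

section

variable {k K : Type} [Field k] [Field K] [Algebra k K] {F : ℕ → Submodule k K}

lemma rees_alg : (rees F).alg = Algebra.adjoin k (gens F) := by
  refine alg_ofSub_adjoin _ ?_
  rintro G (hG | ⟨i, x, hx, hG⟩)
  · exact ⟨-1, 1, hG⟩
  · exact ⟨i, x, hG⟩

lemma t_mem_rees : (1 : K) ∈ (rees F).s (-1) :=
  Fam.mem_ofSub.2 (Algebra.subset_adjoin (Or.inl rfl))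

lemma F_le_rees (i : ℕ) : F i ≤ (rees F).s i :=
  fun x hx => Fam.mem_ofSub.2 (Algebra.subset_adjoin (Or.inr ⟨i, x, hx, rfl⟩))

lemma one_mem_rees (d : ℤ) (hd : d ≤ 0) : (1 : K) ∈ (rees F).s d := by
  have := (rees F).pow' t_mem_rees (-d).toNat
  rw [one_pow] at this
  convert this using 2
  rw [nsmul_eq_mul]
  have : ((-d).toNat : ℤ) = -d := Int.toNat_of_nonneg (by omega)
  rw [this]
  ring

lemma adjoin_down {G : AddMonoidAlgebra K ℤ}
    (hG : single (1 : ℤ) (1 : K) * G ∈ Algebra.adjoin k (gens F)) :
    G ∈ Algebra.adjoin k (gens F) := by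
  have h1 : single (-1 : ℤ) (1 : K) ∈ Algebra.adjoin k (gens F) :=
    Algebra.subset_adjoin (Or.inl rfl)
  have h2 := Subalgebra.mul_mem _ h1 hG
  rwa [← mul_assoc, single_mul_single, one_mul, show (-1 : ℤ) + 1 = 0 by norm_num,
    ← AddMonoidAlgebra.one_def, one_mul] at h2

lemma rees_adm (τ : K ≃ₐ[k] K) (hstep : ∀ i, ∀ e ∈ F i, τ e - e ∈ F (i + 1)) :
    Adm (rees F) τ where
  t_mem := t_mem_rees
  sub_mem := by
    intro a x hx
    have key : ∀ G ∈ Algebra.adjoin k (gens F),
        single (1 : ℤ) (1 : K) * (actHom τ G - G) ∈ Algebra.adjoin k (gens F) := by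
      intro G hG
      induction hG using Algebra.adjoin_induction with
      | mem G hG =>
        rcases hG with hG | ⟨i, e, he, rfl⟩
        · rw [Set.mem_singleton_iff] at hG
          rw [hG, actHom_single, map_one, sub_self, mul_zero]
          exact Subalgebra.zero_mem _
        · rw [actHom_single, ← single_sub, single_mul_single, one_mul]
          refine Algebra.subset_adjoin (Or.inr ⟨i + 1, τ e - e, hstep i e he, ?_⟩)
          push_cast
          rw [add_comm]
      | algebraMap r =>
        rw [AlgHom.commutes, sub_self, mul_zero]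
        exact Subalgebra.zero_mem _
      | add x y _ _ hx hy =>
        have := Subalgebra.add_mem _ hx hy
        convert this using 1
        rw [map_add]
        ring
      | mul x y hxm hym hx hy =>
        have h1 : actHom τ x ∈ Algebra.adjoin k (gens F) := by
          have := Subalgebra.add_mem _ (adjoin_down hx) hxm
          rwa [sub_add_cancel] at this
        have := Subalgebra.add_mem _ (Subalgebra.mul_mem _ h1 hy) (Subalgebra.mul_mem _ hx hym)
        convert this using 1
        rw [map_mul]
        ring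
    have h1 := key _ (Fam.mem_ofSub.1 hx)
    rw [actHom_single, ← single_sub, single_mul_single, one_mul, add_comm] at h1
    exact Fam.mem_ofSub.2 h1

end

/-! ### Degree zero -/

section Zero

variable {k K : Type} [Field k] [Field K] [Algebra k K] {F : ℕ → Submodule k K}

/-- The family all of whose members are the subalgebra `B`. -/
def constFam (B : Subalgebra k K) : Fam k K ℤ where
  s _ := Subalgebra.toSubmodule B
  one' := B.one_mem
  mul' := fun hx hy => B.mul_mem hx hy

lemma rees_le (B : Subalgebra k K) (hF : ∀ i, F i ≤ Subalgebra.toSubmodule B) {a : ℤ} {x : K}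
    (hx : x ∈ (rees F).s a) : x ∈ B := by
  have h1 : Algebra.adjoin k (gens F) ≤ (constFam B).alg := by
    refine Algebra.adjoin_le ?_
    rintro G (hG | ⟨i, y, hy, rfl⟩)
    · rw [Set.mem_singleton_iff] at hG
      rw [hG]
      exact Fam.single_mem_alg.2 B.one_mem
    · exact Fam.single_mem_alg.2 (hF i hy)
  exact Fam.single_mem_alg.1 (h1 (Fam.mem_ofSub.1 hx))

lemma mem_rees_zero {x : K} (hx : x ∈ Algebra.adjoin k (F 0 : Set K)) : x ∈ (rees F).s 0 := by
  induction hx using Algebra.adjoin_induction with
  | mem x hx =>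
    have := F_le_rees 0 hx
    exact_mod_cast this
  | algebraMap r =>
    rw [Algebra.algebraMap_eq_smul_one]
    exact Submodule.smul_mem _ _ (rees F).one'
  | add x y _ _ hx hy => exact Submodule.add_mem _ hx hy
  | mul x y _ _ hx hy =>
    have := (rees F).mul' hx hy
    rwa [add_zero] at this

end Zero

/-! ### The polynomial presentation -/

section Poly

variable {k K : Type} [Field k] [Field K] [Algebra k K] {F : ℕ → Submodule k K} {n : ℕ}

/-- The parametrisation of the Rees algebra by a polynomial ring. -/
noncomputable def phi (E : MvPolynomial (Fin n) k →ₐ[k] K) (w : Fin n → ℕ) :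
    MvPolynomial (Option (Fin n)) k →ₐ[k] AddMonoidAlgebra K ℤ :=
  MvPolynomial.aeval fun o => o.elim (single (-1 : ℤ) (1 : K))
    fun j => single (w j : ℤ) (E (MvPolynomial.X j))

/-- The degree of a monomial. -/
def deg (w : Fin n → ℕ) (α : Option (Fin n) →₀ ℕ) : ℤ :=
  -(α none : ℤ) + ∑ j, (α (some j) : ℤ) * w j

lemma phi_monomial (E : MvPolynomial (Fin n) k →ₐ[k] K) (w : Fin n → ℕ)
    (α : Option (Fin n) →₀ ℕ) : phi E w (MvPolynomial.monomial α 1) =
      single (deg w α) (E (MvPolynomial.monomial α.some 1)) := by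
  have h1 : E (MvPolynomial.monomial α.some 1) =
      ∏ j, E (MvPolynomial.X j) ^ (α (some j)) := by
    have := MvPolynomial.aeval_monomial (R := k) (fun j => E (MvPolynomial.X j)) α.some 1
    rw [map_one (algebraMap k K), one_mul, Finsupp.prod_fintype _ _ (fun _ => pow_zero _)] at this
    change _ = ∏ j, E (MvPolynomial.X j) ^ (α.some j)
    rw [← this]
    congr 1
    apply MvPolynomial.algHom_ext
    intro j
    rw [MvPolynomial.aeval_X]
  rw [h1, phi, MvPolynomial.aeval_monomial, map_one, one_mul,
    Finsupp.prod_fintype _ _ (fun _ => pow_zero _), Fintype.prod_option]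
  simp only [Option.elim, single_pow, one_pow]
  rw [AddMonoidAlgebra.prod_single, single_mul_single, one_mul]
  congr 1
  rw [deg]
  simp

lemma phi_injective (E : MvPolynomial (Fin n) k →ₐ[k] K) (hE : Function.Injective E)
    (w : Fin n → ℕ) : Function.Injective (phi E w) := by
  classical
  set b := MvPolynomial.basisMonomials (Option (Fin n)) k with hb
  have hlin : LinearIndependent k (fun β : Fin n →₀ ℕ => E (MvPolynomial.monomial β 1)) := by
    have := (MvPolynomial.basisMonomials (Fin n) k).linearIndependent.map' E.toLinearMap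
      (LinearMap.ker_eq_bot.2 hE)
    rw [MvPolynomial.coe_basisMonomials] at this
    exact this
  have h1 : LinearIndependent k (fun ix : Σ _ : ℤ, (Fin n →₀ ℕ) =>
      Finsupp.single ix.1 (E (MvPolynomial.monomial ix.2 1))) :=
    Finsupp.linearIndependent_single (fun _ : ℤ => fun β : Fin n →₀ ℕ =>
      E (MvPolynomial.monomial β 1)) fun _ => hlin
  let c : (Option (Fin n) →₀ ℕ) → Σ _ : ℤ, (Fin n →₀ ℕ) := fun α => ⟨deg w α, α.some⟩
  have hc : Function.Injective c := by
    intro α β hαβ
    have h2 : deg w α = deg w β := congrArg Sigma.fst hαβ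
    have h3 : α.some = β.some := by
      simp only [c, Sigma.mk.injEq, heq_eq_eq] at hαβ
      exact hαβ.2
    have h4 : ∀ j, α (some j) = β (some j) := fun j => DFunLike.congr_fun h3 j
    rw [deg, deg] at h2
    simp_rw [h4] at h2
    ext o
    cases o with
    | none =>
      have : (α none : ℤ) = β none := by linarith
      exact_mod_cast this
    | some j => exact h4 j
  have h2 := (h1.comp c hc).map' (coeffLinearEquiv k).symm.toLinearMap
    (LinearEquiv.ker _)
  have h3 : LinearIndependent k (fun α => phi E w (b α)) := by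
    have heq : (fun α => phi E w (b α)) = (⇑(coeffLinearEquiv k).symm.toLinearMap ∘
        (fun ix : Σ _ : ℤ, (Fin n →₀ ℕ) =>
          Finsupp.single ix.1 (E (MvPolynomial.monomial ix.2 1))) ∘ c) := by
      funext α
      rw [hb, MvPolynomial.coe_basisMonomials, phi_monomial]
      rfl
    rw [heq]
    exact h2
  have h4 : (phi E w).toLinearMap =
      (Finsupp.linearCombination k (fun α => phi E w (b α))) ∘ₗ b.repr.toLinearMap := by
    refine b.ext fun α => ?_
    simp
  have h5 : Function.Injective (phi E w).toLinearMap := by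
    rw [h4, LinearMap.coe_comp]
    exact Function.Injective.comp h3 b.repr.injective
  exact h5

lemma phi_range (E : MvPolynomial (Fin n) k →ₐ[k] K) (w : Fin n → ℕ)
    (hmem : ∀ j, E (MvPolynomial.X j) ∈ F (w j))
    (hspan : ∀ i, F i ≤ Submodule.span k {x | ∃ j, i ≤ w j ∧ x = E (MvPolynomial.X j)}) :
    (phi E w).range = (rees F).alg := by
  rw [rees_alg, phi, ← Algebra.adjoin_range_eq_range_aeval]
  apply le_antisymm
  · refine Algebra.adjoin_le ?_
    rintro _ ⟨o, rfl⟩
    cases o with
    | none => exact Algebra.subset_adjoin (Or.inl rfl)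
    | some j => exact Algebra.subset_adjoin (Or.inr ⟨w j, _, hmem j, rfl⟩)
  · refine Algebra.adjoin_le ?_
    have ht : single (-1 : ℤ) (1 : K) ∈ Algebra.adjoin k (Set.range fun o : Option (Fin n) =>
        o.elim (single (-1 : ℤ) (1 : K)) fun j => single (w j : ℤ) (E (MvPolynomial.X j))) :=
      Algebra.subset_adjoin ⟨none, rfl⟩
    rintro G (hG | ⟨i, x, hx, rfl⟩)
    · rw [Set.mem_singleton_iff] at hG
      rw [hG]
      exact ht
    · have hx' := hspan i hx
      clear hx
      induction hx' using Submodule.span_induction with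
      | mem x hx =>
        obtain ⟨j, hj, rfl⟩ := hx
        have h1 : single (w j : ℤ) (E (MvPolynomial.X j)) ∈
            Algebra.adjoin k (Set.range fun o : Option (Fin n) =>
              o.elim (single (-1 : ℤ) (1 : K)) fun j => single (w j : ℤ) (E (MvPolynomial.X j))) :=
          Algebra.subset_adjoin ⟨some j, rfl⟩
        have h2 := Subalgebra.mul_mem _ (Subalgebra.pow_mem _ ht (w j - i)) h1
        rw [single_pow, one_pow, single_mul_single, one_mul] at h2
        have heq : (w j - i) • (-1 : ℤ) + (w j : ℤ) = i := by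
          rw [nsmul_eq_mul, Nat.cast_sub hj]
          ring
        rw [heq] at h2
        exact h2
      | zero =>
        rw [single_zero]
        exact Subalgebra.zero_mem _
      | add x y _ _ hx hy =>
        rw [single_add]
        exact Subalgebra.add_mem _ hx hy
      | smul c x _ hx =>
        rw [← smul_single]
        exact Subalgebra.smul_mem _ hx c

/-- The Rees algebra is a polynomial ring. -/
lemma rees_poly (E : MvPolynomial (Fin n) k →ₐ[k] K) (hE : Function.Injective E) (w : Fin n → ℕ)
    (hmem : ∀ j, E (MvPolynomial.X j) ∈ F (w j))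
    (hspan : ∀ i, F i ≤ Submodule.span k {x | ∃ j, i ≤ w j ∧ x = E (MvPolynomial.X j)}) :
    Nonempty (MvPolynomial (Option (Fin n)) k ≃ₐ[k] (rees F).alg) := by
  rw [← phi_range E w hmem hspan]
  exact ⟨AlgEquiv.ofInjective _ (phi_injective E hE w)⟩

lemma rees_fg_smooth (h : Nonempty (MvPolynomial (Option (Fin n)) k ≃ₐ[k] (rees F).alg)) :
    (rees F).alg.FG ∧ Algebra.FormallySmooth k (rees F).alg := by
  obtain ⟨e⟩ := h
  refine ⟨?_, Algebra.FormallySmooth.of_equiv e⟩
  rw [Subalgebra.fg_iff_finiteType]
  exact Algebra.FiniteType.equiv inferInstance e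

end Poly

end H53

end Pool.Agent.MP_b525bf_ag
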