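import Pool.Agent.Lib.MP_b525bf_ag_helper53.Linear
import Pool.Agent.Lib.MP_b525bf_ag_helper53.Rees

/-!
The initial good family of a linear action of a group of order `p`.
-/

namespace Pool.Agent.MP_b525bf_ag

open AddMonoidAlgebra

namespace H53

section Tau

variable {k : Type} [Field k] {n : ℕ}

/-- The action on rational functions. -/
noncomputable def tau (g h : Matrix (Fin n) (Fin n) k) (hgh : g * h = 1) :
    FractionRing (MvPolynomial (Fin n) k) ≃ₐ[k] FractionRing (MvPolynomial (Fin n) k) :=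
  IsFractionRing.algEquivOfAlgEquiv (actEquiv g h hgh)

lemma tau_algebraMap (g h : Matrix (Fin n) (Fin n) k) (hgh : g * h = 1)
    (x : MvPolynomial (Fin n) k) :
    tau g h hgh (algebraMap (MvPolynomial (Fin n) k) (FractionRing (MvPolynomial (Fin n) k)) x) =
      algebraMap _ _ (act g x) := by
  rw [tau, IsFractionRing.algEquivOfAlgEquiv_algebraMap]
  rfl

lemma tau_lin (g h : Matrix (Fin n) (Fin n) k) (hgh : g * h = 1) (v : Fin n → k) :
    tau g h hgh (lin k n v) = lin k n (g.mulVec v) := by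
  rw [lin_apply, tau_algebraMap, act_lin, ← lin_apply]

lemma tau_pow_algebraMap (g h : Matrix (Fin n) (Fin n) k) (hgh : g * h = 1)
    (x : MvPolynomial (Fin n) k) (m : ℕ) :
    (tau g h hgh ^ m)
      (algebraMap (MvPolynomial (Fin n) k) (FractionRing (MvPolynomial (Fin n) k)) x) =
      algebraMap _ _ (act (g ^ m) x) := by
  induction m with
  | zero => rw [pow_zero, pow_zero, act_one]; rfl
  | succ m ih =>
    rw [pow_succ', AlgEquiv.mul_apply, ih, tau_algebraMap, pow_succ', ← act_mul]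
    rfl

lemma tau_pow (g h : Matrix (Fin n) (Fin n) k) (hgh : g * h = 1) (m : ℕ) (hg : g ^ m = 1) :
    tau g h hgh ^ m = 1 := by
  apply AlgEquiv.ext
  intro z
  obtain ⟨a, b, -, rfl⟩ := IsFractionRing.div_surjective (MvPolynomial (Fin n) k) z
  rw [map_div₀, tau_pow_algebraMap, tau_pow_algebraMap, hg, act_one]
  rfl

/-- The flag of images of the powers of `g - 1`. -/
noncomputable def flag (g : Matrix (Fin n) (Fin n) k) (i : ℕ) : Submodule k (Fin n → k) :=
  LinearMap.range ((g - 1).mulVecLin ^ i)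

/-- The flag, as spaces of linear forms. -/
noncomputable def linFlag (g : Matrix (Fin n) (Fin n) k) (i : ℕ) :
    Submodule k (FractionRing (MvPolynomial (Fin n) k)) :=
  (flag g i).map (lin k n)

lemma tau_lin_sub (g h : Matrix (Fin n) (Fin n) k) (hgh : g * h = 1) (v : Fin n → k) :
    tau g h hgh (lin k n v) - lin k n v = lin k n ((g - 1).mulVecLin v) := by
  rw [tau_lin, ← map_sub, Matrix.mulVecLin_apply, Matrix.sub_mulVec, Matrix.one_mulVec]

lemma mem_linFlag {g : Matrix (Fin n) (Fin n) k} {i : ℕ}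
    {x : FractionRing (MvPolynomial (Fin n) k)} :
    x ∈ linFlag g i ↔ ∃ u, lin k n (((g - 1).mulVecLin ^ i) u) = x := by
  constructor
  · rintro ⟨_, ⟨u, rfl⟩, hv⟩
    exact ⟨u, hv⟩
  · rintro ⟨u, hv⟩
    exact ⟨_, ⟨u, rfl⟩, hv⟩

lemma flag_anti (g : Matrix (Fin n) (Fin n) k) (i : ℕ) : flag g (i + 1) ≤ flag g i := by
  rintro _ ⟨u, rfl⟩
  refine ⟨(g - 1).mulVecLin u, ?_⟩
  rw [pow_succ]
  rfl

lemma mulVecLin_pow_eq_zero (p : ℕ) [Fact p.Prime] [CharP k p] (g : Matrix (Fin n) (Fin n) k)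
    (hg : g ^ p = 1) : (g - 1).mulVecLin ^ p = 0 := by
  rcases isEmpty_or_nonempty (Fin n) with hn | hn
  · ext
    rename_i i _
    exact hn.elim i
  · have h1 : (g - 1) ^ p = 0 := by
      rw [sub_pow_char_of_commute p (Commute.one_right g), hg, one_pow, sub_self]
    have h2 : Matrix.toLin' (g - 1) ^ p = 0 := by
      rw [← Matrix.toLin'_pow, h1, map_zero]
    rw [Matrix.toLin'_apply'] at h2
    exact h2

lemma flag_bot (p : ℕ) [Fact p.Prime] [CharP k p] (g : Matrix (Fin n) (Fin n) k)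
    (hg : g ^ p = 1) (i : ℕ) (hi : p ≤ i) : flag g i = ⊥ := by
  rw [flag, LinearMap.range_eq_bot]
  obtain ⟨j, rfl⟩ := Nat.exists_eq_add_of_le hi
  rw [pow_add, mulVecLin_pow_eq_zero p g hg, zero_mul]

/-- A linear change of coordinates. -/
lemma exists_coordinates (b : Module.Basis (Fin n) k (Fin n → k)) :
    ∃ E : MvPolynomial (Fin n) k →ₐ[k] FractionRing (MvPolynomial (Fin n) k),
      Function.Injective E ∧ ∀ j, E (MvPolynomial.X j) = lin k n (b j) := by
  set P : Matrix (Fin n) (Fin n) k := (Pi.basisFun k (Fin n)).toMatrix b with hP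
  set Q : Matrix (Fin n) (Fin n) k := b.toMatrix (Pi.basisFun k (Fin n)) with hQ
  have hQP : Q * P = 1 := Module.Basis.toMatrix_mul_toMatrix_flip _ _
  refine ⟨(IsScalarTower.toAlgHom k (MvPolynomial (Fin n) k)
    (FractionRing (MvPolynomial (Fin n) k))).comp (act P), ?_, fun j => ?_⟩
  · have h1 : Function.Injective (act P) := by
      refine Function.LeftInverse.injective (g := act Q) fun x => ?_
      have := congrArg (fun f => f x) (act_mul Q P)
      rw [hQP, act_one] at this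
      exact this
    rw [AlgHom.coe_comp]
    exact Function.Injective.comp (IsFractionRing.injective _ _) h1
  · rw [AlgHom.comp_apply, act_X, lin_apply]
    rfl

theorem init (p : ℕ) [hp : Fact p.Prime] [CharP k p] (g h : Matrix (Fin n) (Fin n) k)
    (hgh : g * h = 1) (hg : g ^ p = 1) (hg1 : g ≠ 1) :
    Init (rees (linFlag g)) (tau g h hgh) p (linFlag g) := by
  have hstep : ∀ i, ∀ e ∈ linFlag g i, tau g h hgh e - e ∈ linFlag g (i + 1) := by
    intro i e he
    obtain ⟨u, rfl⟩ := mem_linFlag.1 he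
    rw [tau_lin_sub]
    refine mem_linFlag.2 ⟨u, ?_⟩
    rw [pow_succ']
    rfl
  have hpoly : Nonempty (MvPolynomial (Option (Fin n)) k ≃ₐ[k] (rees (linFlag g)).alg) := by
    obtain ⟨b, w, hbw, hspan⟩ := exists_adapted_basis n (flag g) (flag_anti g)
      (by rw [flag, pow_zero]; exact LinearMap.range_id) p (flag_bot p g hg)
    obtain ⟨E, hE, hEX⟩ := exists_coordinates b
    refine rees_poly E hE w (fun j => ?_) (fun i => ?_)
    · rw [hEX]
      exact ⟨b j, hbw j, rfl⟩
    · rw [linFlag]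
      refine (Submodule.map_mono (hspan i)).trans ?_
      rw [Submodule.map_span]
      refine Submodule.span_mono ?_
      rintro _ ⟨v, ⟨j, hj, rfl⟩, rfl⟩
      exact ⟨j, hj, (hEX j).symm⟩
  obtain ⟨hfg, hsm⟩ := rees_fg_smooth hpoly
  refine ⟨rees_adm _ hstep, tau_pow g h hgh p hg, one_mem_rees, hfg, hsm, F_le_rees, ?_, ?_, ?_,
    hstep, ?_, ?_⟩
  · exact fun i => Submodule.map_mono (flag_anti g i)
  · refine ⟨p, fun i hi => ?_⟩
    rw [linFlag, flag_bot p g hg i hi, Submodule.map_bot]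
  · intro i z hz
    obtain ⟨u, rfl⟩ := mem_linFlag.1 hz
    refine ⟨lin k n (((g - 1).mulVecLin ^ i) u), mem_linFlag.2 ⟨u, rfl⟩, ?_⟩
    rw [tau_lin_sub, pow_succ']
    rfl
  · rw [rees_alg]
    exact le_rfl
  · by_contra hcon
    push Not at hcon
    apply hg1
    apply Matrix.mulVec_injective
    funext v
    have h1 := hcon _ (mem_linFlag.2 ⟨v, rfl⟩)
    rw [map_eq_zero_iff _ lin_injective, pow_one, Matrix.mulVecLin_apply, Matrix.sub_mulVec,
      sub_eq_zero] at h1
    exact h1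

lemma mem_fix_zero (g h : Matrix (Fin n) (Fin n) k)
    (hgh : g * h = 1) (z : FractionRing (MvPolynomial (Fin n) k)) :
    z ∈ (fixFam (rees (linFlag g)) (tau g h hgh)).s 0 ↔
      ∃ x ∈ invariants g, algebraMap _ _ x = z := by
  set B : Subalgebra k (FractionRing (MvPolynomial (Fin n) k)) :=
    (IsScalarTower.toAlgHom k (MvPolynomial (Fin n) k)
      (FractionRing (MvPolynomial (Fin n) k))).range with hB
  constructor
  · rintro ⟨hz, hfix⟩
    have h1 : z ∈ B := by
      refine rees_le B (fun i => ?_) hz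
      rintro _ ⟨v, -, rfl⟩
      rw [lin_apply]
      exact ⟨_, rfl⟩
    obtain ⟨x, rfl⟩ := h1
    refine ⟨x, ?_, rfl⟩
    have h2 := tau_algebraMap g h hgh x
    exact IsFractionRing.injective (MvPolynomial (Fin n) k) _ (h2.symm.trans hfix)
  · rintro ⟨x, hx, rfl⟩
    refine ⟨mem_rees_zero ?_, ?_⟩
    · have h1 : B ≤ Algebra.adjoin k (linFlag g 0 : Set (FractionRing (MvPolynomial (Fin n) k))) := by
        rw [hB, ← Algebra.map_top, ← MvPolynomial.adjoin_range_X, AlgHom.map_adjoin]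
        refine Algebra.adjoin_mono ?_
        rintro _ ⟨_, ⟨j, rfl⟩, rfl⟩
        refine mem_linFlag.2 ⟨Pi.single j 1, ?_⟩
        rw [pow_zero, Module.End.one_apply, lin_apply]
        change _ = algebraMap _ _ _
        congr 1
        simp [Pi.single_apply]
      exact h1 ⟨x, rfl⟩
    · rw [tau_algebraMap]
      congr 1

end Tau

end H53

theorem exists_initial (p : ℕ) [Fact p.Prime] (k : Type) [Field k] [CharP k p] (n : ℕ)
    (g : Matrix (Fin n) (Fin n) k) (hg : g ^ p = 1) (hg1 : g ≠ 1) :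
    ∃ M : Fam k (FractionRing (MvPolynomial (Fin n) k)) ℤ, ∃ w, 0 < w ∧ Good M w ∧
      ∀ z, z ∈ M.s 0 ↔ ∃ x ∈ invariants g, algebraMap _ _ x = z := by
  have hp : p.Prime := Fact.out
  have hgh : g * g ^ (p - 1) = 1 := by
    rw [← pow_succ', Nat.sub_add_cancel hp.one_le, hg]
  obtain ⟨w, hw, hgood⟩ := (H53.init p g (g ^ (p - 1)) hgh hg hg1).good
  exact ⟨_, w, hw, hgood, H53.mem_fix_zero g _ hgh⟩

end Pool.Agent.MP_b525bf_ag
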