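import Pool.Agent.Lib.MP_b525bf_ag.Good

/-!
Homogeneous subalgebras and localisations of `Fam`.
-/

set_option linter.style.haveILetI false

namespace Pool.Agent.MP_b525bf_ag

open AddMonoidAlgebra

namespace H53

variable {k K ι : Type} [Field k] [Field K] [Algebra k K] [AddCommGroup ι]

lemma sum_single_coeff (F : AddMonoidAlgebra K ι) :
    F = ∑ a ∈ F.coeff.support, single a (F.coeff a) := by
  conv_lhs => rw [← AddMonoidAlgebra.sum_coeff_single F]
  rfl

lemma alg_ofSub_le (B : Subalgebra k (AddMonoidAlgebra K ι)) : (Fam.ofSub B).alg ≤ B := by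
  intro F hF
  rw [sum_single_coeff F]
  exact B.sum_mem fun a _ => hF a

lemma alg_ofSub_adjoin (s : Set (AddMonoidAlgebra K ι)) (hs : ∀ F ∈ s, ∃ a x, F = single a x) :
    (Fam.ofSub (Algebra.adjoin k s)).alg = Algebra.adjoin k s := by
  refine le_antisymm (alg_ofSub_le _) (Algebra.adjoin_le ?_)
  intro F hF
  obtain ⟨a, x, rfl⟩ := hs F hF
  exact Fam.single_mem_alg.2 (Fam.mem_ofSub.2 (Algebra.subset_adjoin hF))

lemma alg_mono {N N' : Fam k K ι} (h : ∀ a, N.s a ≤ N'.s a) : N.alg ≤ N'.alg :=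
  fun _ hF a => h a (hF a)

lemma alg_le_loc (N : Fam k K ι) {a : ι} {x : K} (hx : x ∈ N.s a) : N.alg ≤ (N.loc hx).alg :=
  alg_mono (N.le_loc hx)

/-- Multiplying an element of the localisation by a large power of `x T ^ a`. -/
lemma exists_pow_mul_mem (N : Fam k K ι) {a : ι} {x : K} (hx : x ∈ N.s a)
    (F : AddMonoidAlgebra K ι) (hF : F ∈ (N.loc hx).alg) :
    ∃ m : ℕ, single a x ^ m * F ∈ N.alg := by
  classical
  have key : ∀ S : Finset ι, (∀ b ∈ S, F.coeff b ∈ (N.loc hx).s b) →
      ∃ m : ℕ, ∀ m', m ≤ m' → ∀ b ∈ S, single a x ^ m' * single b (F.coeff b) ∈ N.alg := by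
    intro S hS
    induction S using Finset.induction_on with
    | empty => exact ⟨0, fun _ _ b hb => absurd hb (Finset.notMem_empty b)⟩
    | insert c S hc ih =>
      obtain ⟨m, hm⟩ := ih fun b hb => hS b (Finset.mem_insert_of_mem hb)
      obtain ⟨r, hr⟩ := hS c (Finset.mem_insert_self c S)
      refine ⟨max m r, fun m' hm' b hb => ?_⟩
      rcases Finset.mem_insert.1 hb with rfl | hb
      · have hrm : r ≤ m' := (le_max_right _ _).trans hm'
        obtain ⟨u, rfl⟩ := Nat.exists_eq_add_of_le hrm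
        rw [AddMonoidAlgebra.single_pow, single_mul_single]
        apply Fam.single_mem_alg.2
        have := N.mul' (N.pow' hx u) hr
        convert this using 1
        · rw [add_nsmul]; abel_nf
        · ring
      · exact hm m' ((le_max_left _ _).trans hm') b hb
  obtain ⟨m, hm⟩ := key F.coeff.support fun b _ => hF b
  refine ⟨m, ?_⟩
  rw [sum_single_coeff F, Finset.mul_sum]
  refine N.alg.sum_mem fun b hb => ?_
  exact hm m le_rfl b hb

/-- The inclusion of `N.alg` in its localisation. -/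
noncomputable def toLoc (N : Fam k K ι) {a : ι} {x : K} (hx : x ∈ N.s a) :
    N.alg →ₐ[k] (N.loc hx).alg := Subalgebra.inclusion (alg_le_loc N hx)

theorem isLocalization_loc (N : Fam k K ι) {a : ι} {x : K} (hx : x ∈ N.s a) (hx0 : x ≠ 0) :
    letI := (toLoc N hx).toRingHom.toAlgebra
    IsLocalization.Away (N.el hx) (N.loc hx).alg := by
  letI := (toLoc N hx).toRingHom.toAlgebra
  have hmap : ∀ F : N.alg, ((algebraMap N.alg (N.loc hx).alg F : (N.loc hx).alg) :
      AddMonoidAlgebra K ι) = F := fun F => rfl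
  have hinv : x⁻¹ ∈ (N.loc hx).s (-a) := by
    refine ⟨1, ?_⟩
    rw [pow_one, one_nsmul, add_neg_cancel, mul_inv_cancel₀ hx0]
    exact N.one'
  refine ⟨?_, ?_, ?_⟩
  · rintro ⟨_, m, rfl⟩
    dsimp only
    rw [map_pow]
    apply IsUnit.pow
    refine IsUnit.of_mul_eq_one ((N.loc hx).el hinv) ?_
    apply Subtype.ext
    rw [MulMemClass.coe_mul, hmap, Fam.coe_el, Fam.coe_el, single_mul_single, add_neg_cancel,
      mul_inv_cancel₀ hx0]
    rfl
  · intro F
    obtain ⟨m, hm⟩ := exists_pow_mul_mem N hx F F.2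
    refine ⟨(⟨_, hm⟩, ⟨N.el hx ^ m, m, rfl⟩), ?_⟩
    apply Subtype.ext
    rw [MulMemClass.coe_mul, hmap, hmap, SubmonoidClass.coe_pow, Fam.coe_el]
    exact mul_comm _ _
  · intro F G h
    refine ⟨1, ?_⟩
    have h' : (F : AddMonoidAlgebra K ι) = G := by
      rw [← hmap, ← hmap, h]
    rw [Subtype.ext h']

lemma isScalarTower_loc (N : Fam k K ι) {a : ι} {x : K} (hx : x ∈ N.s a) :
    letI := (toLoc N hx).toRingHom.toAlgebra
    IsScalarTower k N.alg (N.loc hx).alg := by
  letI := (toLoc N hx).toRingHom.toAlgebra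
  exact IsScalarTower.of_algebraMap_eq fun r => rfl

theorem formallySmooth_loc (N : Fam k K ι) {a : ι} {x : K} (hx : x ∈ N.s a) (hx0 : x ≠ 0)
    (h : Algebra.FormallySmooth k N.alg) : Algebra.FormallySmooth k (N.loc hx).alg := by
  letI := (toLoc N hx).toRingHom.toAlgebra
  haveI := isScalarTower_loc N hx
  haveI := isLocalization_loc N hx hx0
  haveI : Algebra.FormallySmooth N.alg (N.loc hx).alg :=
    Algebra.FormallySmooth.of_isLocalization (Submonoid.powers (N.el hx))
  exact Algebra.FormallySmooth.comp k N.alg (N.loc hx).alg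

theorem finitePresentation_loc (N : Fam k K ι) {a : ι} {x : K} (hx : x ∈ N.s a) (hx0 : x ≠ 0)
    (h : Algebra.FinitePresentation k N.alg) :
    Algebra.FinitePresentation k (N.loc hx).alg := by
  letI := (toLoc N hx).toRingHom.toAlgebra
  haveI := isScalarTower_loc N hx
  haveI := isLocalization_loc N hx hx0
  haveI : Algebra.FinitePresentation N.alg (N.loc hx).alg :=
    IsLocalization.Away.finitePresentation (N.el hx)
  exact Algebra.FinitePresentation.trans k N.alg (N.loc hx).alg

theorem formallySmooth_away (N : Fam k K ι) {a : ι} {x : K} (hx : x ∈ N.s a) (hx0 : x ≠ 0)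
    (h : Algebra.FormallySmooth k (N.loc hx).alg) :
    Algebra.FormallySmooth k (Localization.Away (N.el hx)) := by
  letI := (toLoc N hx).toRingHom.toAlgebra
  haveI := isScalarTower_loc N hx
  haveI := isLocalization_loc N hx hx0
  exact Algebra.FormallySmooth.of_equiv
    ((IsLocalization.algEquiv (Submonoid.powers (N.el hx)) (N.loc hx).alg
      (Localization.Away (N.el hx))).restrictScalars k)

/-- Formal smoothness can be checked on a homogeneous cover. -/
theorem formallySmooth_of_cover (N : Fam k K ι) (h : Algebra.FinitePresentation k N.alg)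
    (hc : ∀ (P : Ideal N.alg) [P.IsPrime], ∃ (a : ι) (x : K) (hx : x ∈ N.s a), x ≠ 0 ∧
      N.el hx ∉ P ∧ Algebra.FormallySmooth k (N.loc hx).alg) :
    Algebra.FormallySmooth k N.alg := by
  rw [← Algebra.smoothLocus_eq_univ_iff, Set.eq_univ_iff_forall]
  intro P
  obtain ⟨a, x, hx, hx0, hxP, hsm⟩ := hc P.asIdeal
  have := (Algebra.basicOpen_subset_smoothLocus_iff (R := k) (f := N.el hx)).2
    (formallySmooth_away N hx hx0 hsm)
  exact this hxP

end H53

end Pool.Agent.MP_b525bf_ag
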