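import Pool.Agent.Lib.MP_b525bf_ag_helper53.FamLoc

/-!
Fixed families under an automorphism of finite order of the field.
-/

set_option linter.style.haveILetI false

namespace Pool.Agent.MP_b525bf_ag

open AddMonoidAlgebra

namespace H53

variable {k K : Type} [Field k] [Field K] [Algebra k K]

/-- `τ` acts on the family `N` and is the identity modulo `t = T ^ (-1)`. -/
structure Adm (N : Fam k K ℤ) (τ : K ≃ₐ[k] K) : Prop where
  t_mem : (1 : K) ∈ N.s (-1)
  sub_mem : ∀ (a : ℤ) (x : K), x ∈ N.s a → τ x - x ∈ N.s (a + 1)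

namespace Adm

variable {N : Fam k K ℤ} {τ : K ≃ₐ[k] K} (h : Adm N τ)

include h

lemma down {a : ℤ} {x : K} (hx : x ∈ N.s (a + 1)) : x ∈ N.s a := by
  have := N.mul' h.t_mem hx
  rwa [one_mul, show (-1 : ℤ) + (a + 1) = a by ring] at this

lemma map_mem {a : ℤ} {x : K} (hx : x ∈ N.s a) : τ x ∈ N.s a := by
  have := Submodule.add_mem _ (h.down (h.sub_mem a x hx)) hx
  rwa [sub_add_cancel] at this

lemma pow_map_mem {a : ℤ} {x : K} (hx : x ∈ N.s a) (m : ℕ) : (τ ^ m) x ∈ N.s a := by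
  induction m with
  | zero => simpa using hx
  | succ m ih => rw [pow_succ']; exact h.map_mem ih

lemma loc {a : ℤ} {x : K} (hx : x ∈ N.s a) (hτ : τ x = x) : Adm (N.loc hx) τ where
  t_mem := N.le_loc hx _ h.t_mem
  sub_mem := by
    rintro b y ⟨m, hm⟩
    refine ⟨m, ?_⟩
    have := h.sub_mem _ _ hm
    rw [map_mul, map_pow, hτ, ← mul_sub, add_assoc] at this
    exact this

end Adm

/-- The family of fixed elements. -/
def fixFam (N : Fam k K ℤ) (τ : K ≃ₐ[k] K) : Fam k K ℤ where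
  s a :=
    { carrier := {x | x ∈ N.s a ∧ τ x = x}
      add_mem' := fun hx hy => ⟨Submodule.add_mem _ hx.1 hy.1, by rw [map_add, hx.2, hy.2]⟩
      zero_mem' := ⟨Submodule.zero_mem _, map_zero _⟩
      smul_mem' := fun c x hx => ⟨Submodule.smul_mem _ c hx.1, by rw [map_smul, hx.2]⟩ }
  one' := ⟨N.one', map_one _⟩
  mul' := fun hx hy => ⟨N.mul' hx.1 hy.1, by rw [map_mul, hx.2, hy.2]⟩

lemma mem_fixFam {N : Fam k K ℤ} {τ : K ≃ₐ[k] K} {a : ℤ} {x : K} :
    x ∈ (fixFam N τ).s a ↔ x ∈ N.s a ∧ τ x = x := Iff.rfl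

lemma fixFam_loc (N : Fam k K ℤ) (τ : K ≃ₐ[k] K) {a : ℤ} {x : K} (hx : x ∈ (fixFam N τ).s a)
    (hx0 : x ≠ 0) : (fixFam N τ).loc hx = fixFam (N.loc hx.1) τ := by
  apply Fam.ext
  intro b
  ext y
  rw [mem_fixFam, Fam.mem_loc, Fam.mem_loc]
  constructor
  · rintro ⟨m, hm⟩
    refine ⟨⟨m, hm.1⟩, ?_⟩
    have := hm.2
    rw [map_mul, map_pow, hx.2] at this
    exact mul_left_cancel₀ (pow_ne_zero m hx0) this
  · rintro ⟨⟨m, hm⟩, hy⟩
    exact ⟨m, hm, by rw [map_mul, map_pow, hx.2, hy]⟩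

/-- The action of `τ` on the coefficients. -/
noncomputable def actHom (τ : K ≃ₐ[k] K) : AddMonoidAlgebra K ℤ →ₐ[k] AddMonoidAlgebra K ℤ :=
  mapAlgHom ℤ (τ : K →ₐ[k] K)

lemma coeff_actHom (τ : K ≃ₐ[k] K) (F : AddMonoidAlgebra K ℤ) (a : ℤ) :
    (actHom τ F).coeff a = τ (F.coeff a) := by
  rw [actHom, coeff_mapAlgHom]; rfl

lemma actHom_single (τ : K ≃ₐ[k] K) (a : ℤ) (x : K) : actHom τ (single a x) = single a (τ x) := by
  rw [actHom, mapAlgHom_single]; rfl

/-- The restriction of the action to `N.alg`, as a homomorphism. -/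
noncomputable def resHom (N : Fam k K ℤ) (τ : K ≃ₐ[k] K) (h : ∀ a x, x ∈ N.s a → τ x ∈ N.s a) :
    N.alg →ₐ[k] N.alg :=
  ((actHom τ).comp N.alg.val).codRestrict N.alg (by
    intro F a
    have : ((actHom τ).comp N.alg.val) F = actHom τ F := rfl
    rw [this, coeff_actHom]
    exact h a _ (F.2 a))

lemma coe_resHom (N : Fam k K ℤ) (τ : K ≃ₐ[k] K) (h : ∀ a x, x ∈ N.s a → τ x ∈ N.s a)
    (F : N.alg) : ((resHom N τ h F : N.alg) : AddMonoidAlgebra K ℤ) = actHom τ F := rfl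

lemma resHom_el (N : Fam k K ℤ) (τ : K ≃ₐ[k] K) (h : ∀ a x, x ∈ N.s a → τ x ∈ N.s a)
    {a : ℤ} {x : K} (hx : x ∈ N.s a) : resHom N τ h (N.el hx) = N.el (h a x hx) := by
  apply Subtype.ext
  rw [coe_resHom, Fam.coe_el, Fam.coe_el, actHom_single]

section

variable {N : Fam k K ℤ} {τ : K ≃ₐ[k] K} (h : Adm N τ) {p : ℕ} [hp : Fact p.Prime]
  (hτ : τ ^ p = 1)

include h hτ hp

lemma Adm.symm_mem (a : ℤ) (x : K) (hx : x ∈ N.s a) : τ.symm x ∈ N.s a := by
  have h1 : τ.symm = τ ^ (p - 1) := by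
    have h2 : τ * τ ^ (p - 1) = 1 := by
      rw [← pow_succ', Nat.sub_add_cancel hp.out.one_le, hτ]
    have h3 : τ⁻¹ = τ ^ (p - 1) := inv_eq_of_mul_eq_one_right h2
    exact h3
  rw [h1]
  exact h.pow_map_mem hx _

/-- The restriction of the action to `N.alg`. -/
noncomputable def resEquiv : N.alg ≃ₐ[k] N.alg :=
  AlgEquiv.ofAlgHom (resHom N τ fun _ _ => h.map_mem) (resHom N τ.symm (h.symm_mem hτ))
    (by
      apply AlgHom.ext
      intro F
      apply Subtype.ext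
      rw [AlgHom.comp_apply, coe_resHom, coe_resHom, AlgHom.id_apply]
      apply AddMonoidAlgebra.ext
      ext a
      rw [coeff_actHom, coeff_actHom, AlgEquiv.apply_symm_apply])
    (by
      apply AlgHom.ext
      intro F
      apply Subtype.ext
      rw [AlgHom.comp_apply, coe_resHom, coe_resHom, AlgHom.id_apply]
      apply AddMonoidAlgebra.ext
      ext a
      rw [coeff_actHom, coeff_actHom, AlgEquiv.symm_apply_apply])

lemma coe_resEquiv (F : N.alg) :
    ((resEquiv h hτ F : N.alg) : AddMonoidAlgebra K ℤ) = actHom τ F := rfl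

lemma resEquiv_el {a : ℤ} {x : K} (hx : x ∈ N.s a) :
    resEquiv h hτ (N.el hx) = N.el (h.map_mem hx) := resHom_el _ _ _ _

lemma coeff_resEquiv_pow (m : ℕ) (F : N.alg) (a : ℤ) :
    (((resEquiv h hτ ^ m) F : N.alg) : AddMonoidAlgebra K ℤ).coeff a =
      (τ ^ m) ((F : AddMonoidAlgebra K ℤ).coeff a) := by
  induction m with
  | zero => simp
  | succ m ih =>
    rw [pow_succ', pow_succ', AlgEquiv.mul_apply, coe_resEquiv, coeff_actHom, ih,
      AlgEquiv.mul_apply]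

lemma resEquiv_pow_el (m : ℕ) {a : ℤ} {x : K} (hx : x ∈ N.s a) :
    (resEquiv h hτ ^ m) (N.el hx) = N.el (h.pow_map_mem hx m) := by
  apply Subtype.ext
  apply AddMonoidAlgebra.ext
  ext b
  rw [coeff_resEquiv_pow, Fam.coe_el, Fam.coe_el, coeff_single, coeff_single]
  classical
  rw [Finsupp.single_apply, Finsupp.single_apply]
  split_ifs
  · rfl
  · exact map_zero _

lemma resEquiv_pow : resEquiv h hτ ^ p = 1 := by
  apply AlgEquiv.ext
  intro F
  apply Subtype.ext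
  apply AddMonoidAlgebra.ext
  ext a
  rw [coeff_resEquiv_pow, hτ]
  rfl

end

/-- The inclusion of the fixed part. -/
noncomputable def fixIncl (N : Fam k K ℤ) (τ : K ≃ₐ[k] K) : (fixFam N τ).alg →ₐ[k] N.alg :=
  Subalgebra.inclusion (alg_mono fun _ _ hx => hx.1)

lemma coe_fixIncl (N : Fam k K ℤ) (τ : K ≃ₐ[k] K) (F : (fixFam N τ).alg) :
    ((fixIncl N τ F : N.alg) : AddMonoidAlgebra K ℤ) = F := rfl

lemma fixIncl_injective (N : Fam k K ℤ) (τ : K ≃ₐ[k] K) : Function.Injective (fixIncl N τ) :=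
  Subalgebra.inclusion_injective _

section

variable {N : Fam k K ℤ} {τ : K ≃ₐ[k] K} (h : Adm N τ) {p : ℕ} [hp : Fact p.Prime]
  (hτ : τ ^ p = 1)

include h hτ hp

lemma exists_of_fixed (F : N.alg) (hF : resEquiv h hτ F = F) : ∃ G, fixIncl N τ G = F := by
  refine ⟨⟨F, fun a => ⟨F.2 a, ?_⟩⟩, Subtype.ext rfl⟩
  rw [← coeff_actHom, ← coe_resEquiv h hτ F, hF]

lemma fixIncl_fixed (G : (fixFam N τ).alg) : resEquiv h hτ (fixIncl N τ G) = fixIncl N τ G := by
  apply Subtype.ext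
  rw [coe_resEquiv, coe_fixIncl]
  apply AddMonoidAlgebra.ext
  ext a
  rw [coeff_actHom]
  exact (G.2 a).2

theorem fix_isIntegral : (fixIncl N τ).toRingHom.IsIntegral := by
  letI := (fixIncl N τ).toRingHom.toAlgebra
  let σ := resEquiv h hτ
  haveI : Finite (Subgroup.zpowers σ) :=
    finite_zpowers.2 (isOfFinOrder_iff_pow_eq_one.2 ⟨p, hp.out.pos, resEquiv_pow h hτ⟩)
  haveI : Algebra.IsInvariant (fixFam N τ).alg N.alg (Subgroup.zpowers σ) := by
    refine ⟨fun F hF => ?_⟩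
    have h1 : σ F = F := hF ⟨σ, Subgroup.mem_zpowers σ⟩
    exact exists_of_fixed h hτ F h1
  exact algebraMap_isIntegral_iff.2 (Algebra.IsInvariant.isIntegral _ _ (Subgroup.zpowers σ))

theorem fix_fg (hN : N.alg.FG) : (fixFam N τ).alg.FG := by
  letI := (fixIncl N τ).toRingHom.toAlgebra
  haveI : IsScalarTower k (fixFam N τ).alg N.alg := IsScalarTower.of_algebraMap_eq fun r => rfl
  haveI : Algebra.IsIntegral (fixFam N τ).alg N.alg :=
    algebraMap_isIntegral_iff.1 (fix_isIntegral h hτ)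
  haveI : Algebra.FiniteType k N.alg := Subalgebra.fg_iff_finiteType _ |>.1 hN
  haveI : Algebra.FiniteType (fixFam N τ).alg N.alg :=
    Algebra.FiniteType.of_restrictScalars_finiteType k _ _
  haveI : Module.Finite (fixFam N τ).alg N.alg := Algebra.IsIntegral.finite
  have := fg_of_fg_of_fg k (fixFam N τ).alg N.alg Algebra.FiniteType.out Module.Finite.fg_top
    (fixIncl_injective N τ)
  exact (Subalgebra.fg_top _).1 this

end

end H53

end Pool.Agent.MP_b525bf_ag
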