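import Pool.Agent.Lib.MP_b525bf_ag.Defs
import Pool.Agent.Lib.MP_b525bf_ag_helper53.GoodFix
import Pool.Agent.Lib.MP_b525bf_ag_helper53.Flag

/-!
The extended Rees algebra of the flag of a linear action of a group of order `p`.
-/

namespace Pool.Agent.MP_b525bf_ag

open AddMonoidAlgebra

namespace H53

/-! ### The action -/

section Action

variable {k : Type} [Field k] {n : ℕ}

lemma act_X (g : Matrix (Fin n) (Fin n) k) (j : Fin n) :
    act g (MvPolynomial.X j) = ∑ i, MvPolynomial.C (g i j) * MvPolynomial.X i := by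
  rw [act, MvPolynomial.aeval_X]

lemma act_mul (g h : Matrix (Fin n) (Fin n) k) : (act g).comp (act h) = act (g * h) := by
  apply MvPolynomial.algHom_ext
  intro j
  rw [AlgHom.comp_apply, act_X, act_X, map_sum]
  simp_rw [map_mul, MvPolynomial.algHom_C, act_X, Finset.mul_sum]
  rw [Finset.sum_comm]
  refine Finset.sum_congr rfl fun i _ => ?_
  rw [Matrix.mul_apply, map_sum, Finset.sum_mul]
  refine Finset.sum_congr rfl fun l _ => ?_
  rw [MvPolynomial.algebraMap_eq, map_mul]
  ring

lemma act_one : act (1 : Matrix (Fin n) (Fin n) k) = AlgHom.id k _ := by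
  apply MvPolynomial.algHom_ext
  intro j
  rw [act_X, AlgHom.id_apply]
  simp [Matrix.one_apply]

/-- The action of an invertible matrix. -/
noncomputable def actEquiv (g h : Matrix (Fin n) (Fin n) k) (hgh : g * h = 1) :
    MvPolynomial (Fin n) k ≃ₐ[k] MvPolynomial (Fin n) k :=
  AlgEquiv.ofAlgHom (act g) (act h) (by rw [act_mul, hgh, act_one])
    (by rw [act_mul, mul_eq_one_comm.1 hgh, act_one])

lemma actEquiv_apply (g h : Matrix (Fin n) (Fin n) k) (hgh : g * h = 1)
    (x : MvPolynomial (Fin n) k) : actEquiv g h hgh x = act g x := rfl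

/-- The linear form with coefficients `v`, as a rational function. -/
noncomputable def lin (k : Type) [Field k] (n : ℕ) :
    (Fin n → k) →ₗ[k] FractionRing (MvPolynomial (Fin n) k) :=
  (IsScalarTower.toAlgHom k (MvPolynomial (Fin n) k)
    (FractionRing (MvPolynomial (Fin n) k))).toLinearMap ∘ₗ
      (Fintype.linearCombination k (fun i => (MvPolynomial.X i : MvPolynomial (Fin n) k)))

lemma lin_apply (v : Fin n → k) :
    lin k n v = algebraMap (MvPolynomial (Fin n) k) _
      (∑ i, MvPolynomial.C (v i) * MvPolynomial.X i) := by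
  rw [lin, LinearMap.comp_apply, Fintype.linearCombination_apply]
  simp_rw [MvPolynomial.smul_eq_C_mul]
  rfl

lemma lin_injective : Function.Injective (lin k n) := by
  intro v v' h
  rw [lin_apply, lin_apply] at h
  have h1 := IsFractionRing.injective (MvPolynomial (Fin n) k) _ h
  funext i
  have h2 := congrArg (MvPolynomial.coeff (Finsupp.single i 1)) h1
  rw [MvPolynomial.coeff_sum, MvPolynomial.coeff_sum] at h2
  simp_rw [MvPolynomial.coeff_C_mul, MvPolynomial.coeff_X] at h2
  simpa [Finsupp.single_left_inj, MvPolynomial.coeff_X] using h2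

lemma act_lin (g : Matrix (Fin n) (Fin n) k) (v : Fin n → k) :
    act g (∑ i, MvPolynomial.C (v i) * MvPolynomial.X i) =
      ∑ i, MvPolynomial.C (g.mulVec v i) * MvPolynomial.X i := by
  rw [map_sum]
  simp_rw [map_mul, MvPolynomial.algHom_C, act_X, Finset.mul_sum]
  rw [Finset.sum_comm]
  refine Finset.sum_congr rfl fun i _ => ?_
  rw [Matrix.mulVec, dotProduct, map_sum, Finset.sum_mul]
  refine Finset.sum_congr rfl fun l _ => ?_
  rw [MvPolynomial.algebraMap_eq, map_mul]
  ring

end Action

end H53

end Pool.Agent.MP_b525bf_ag
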