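import Pool.Agent.Lib.MP_b525bf_ag.Descent
import Pool.Agent.Lib.MP_b525bf_ag.FamLoc
import Pool.Agent.Lib.MP_b525bf_ag_helper53.Fix

/-!
Smoothness of fixed families.
-/

set_option linter.style.haveILetI false

namespace Pool.Agent.MP_b525bf_ag

open AddMonoidAlgebra

namespace H53

variable {k K : Type} [Field k] [Field K] [Algebra k K]

section

variable {N : Fam k K ℤ} {τ : K ≃ₐ[k] K} (h : Adm N τ)

include h

lemma Adm.pow_sub_mem {a : ℤ} {x : K} (hx : x ∈ N.s a) (j : ℕ) : (τ ^ j) x - x ∈ N.s (a + 1) := by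
  induction j with
  | zero => simp
  | succ j ih =>
    have h1 := h.map_mem ih
    have h2 := Submodule.add_mem _ h1 (h.sub_mem a x hx)
    convert h2 using 1
    rw [pow_succ', AlgEquiv.mul_apply, map_sub]
    ring

lemma el_sub_eq {a : ℤ} {x y : K} (hx : x ∈ N.s a) (hy : y ∈ N.s a) (hxy : x - y ∈ N.s (a + 1)) :
    N.el hx - N.el hy = N.el h.t_mem * N.el hxy := by
  apply Subtype.ext
  rw [AddSubgroupClass.coe_sub, MulMemClass.coe_mul, Fam.coe_el, Fam.coe_el, Fam.coe_el,
    Fam.coe_el, single_mul_single, one_mul, show (-1 : ℤ) + (a + 1) = a by ring]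
  apply AddMonoidAlgebra.ext
  ext b
  classical
  rw [AddMonoidAlgebra.coeff_sub, Finsupp.sub_apply, coeff_single, coeff_single, coeff_single,
    Finsupp.single_apply, Finsupp.single_apply, Finsupp.single_apply]
  split_ifs
  · rfl
  · exact sub_zero _

end

section

variable {N : Fam k K ℤ} {τ : K ≃ₐ[k] K} (h : Adm N τ) {p : ℕ} [hp : Fact p.Prime]
  (hτ : τ ^ p = 1)

include h hτ hp

lemma dvd_resEquiv_sub (F : N.alg) : N.el h.t_mem ∣ resEquiv h hτ F - F := by
  refine Fam.alg_induction N (p := fun F => N.el h.t_mem ∣ resEquiv h hτ F - F) ?_ ?_ ?_ F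
  · rw [map_zero, sub_zero]; exact dvd_zero _
  · intro F G hF hG
    rw [map_add, add_sub_add_comm]
    exact dvd_add hF hG
  · intro a x hx
    rw [resEquiv_el, el_sub_eq h _ _ (h.sub_mem a x hx)]
    exact dvd_mul_right _ _

/-- The fixed algebra as the fixed subalgebra. -/
noncomputable def fixEquiv : (fixFam N τ).alg ≃ₐ[k] fixedSub (resEquiv h hτ) :=
  AlgEquiv.ofBijective ((fixIncl N τ).codRestrict (fixedSub (resEquiv h hτ))
    (fun G => fixIncl_fixed h hτ G)) (by
    constructor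
    · intro F G hFG
      exact fixIncl_injective N τ (congrArg Subtype.val hFG)
    · rintro ⟨F, hF⟩
      obtain ⟨G, hG⟩ := exists_of_fixed h hτ F hF
      exact ⟨G, Subtype.ext hG⟩)

theorem smooth_fix (hsm : Algebra.FormallySmooth k N.alg) {i : ℤ} {e : K} (he : e ∈ N.s i)
    (hu : ∀ j, 0 < j → j < p → IsUnit (N.el (h.pow_sub_mem he j))) :
    Algebra.FormallySmooth k (fixFam N τ).alg := by
  have h1 : Algebra.FormallySmooth k (fixedSub (resEquiv h hτ)) := by
    refine formallySmooth_fixed p (resEquiv h hτ) (resEquiv_pow h hτ) (N.el h.t_mem) ?_ ?_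
      (dvd_resEquiv_sub h hτ) (N.el he) ?_
    · intro h0
      have := congrArg (fun F : N.alg => (F : AddMonoidAlgebra K ℤ).coeff (-1)) h0
      simp at this
    · rw [resEquiv_el]
      exact Fam.el_eq _ _ _ rfl (map_one _)
    · intro j hj0 hj
      refine ⟨(hu j hj0 hj).unit, ?_⟩
      rw [IsUnit.unit_spec, resEquiv_pow_el, el_sub_eq h _ _ (h.pow_sub_mem he j)]
  exact Algebra.FormallySmooth.of_equiv (A := fixedSub (resEquiv h hτ)) (B := (fixFam N τ).alg)
    (fixEquiv h hτ).symm

end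

end H53

end Pool.Agent.MP_b525bf_ag
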